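import Mathlib

set_option autoImplicit false

/-!
# Integrals of products of powers of `log (1 - x)` and `log (1 + x)`

Write `J j k` for the integral of `log (1 - t) ^ j * log t ^ k / t` over `(0, 1)` (`1 ≤ j`).
We show that every `J j k` is a rational polynomial in the values `Z n`, `2 ≤ n`, of the zeta
function, via the logarithmic derivative of the Beta function, and express the integral of
`log (1 - x) ^ (n + 1) * log (1 + x) ^ n / (1 + x)` over `(0, 1)` through the `J j k` and `log 2`.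
-/

open MeasureTheory Set

namespace Pool.Agent.Lib.MP_cd3f56_nt

/-- real beta integrand is integrable -/
theorem beta_integrable (α β : ℝ) (hα : -1 < α) (hβ : -1 < β) :
    IntegrableOn (fun t : ℝ => (1 - t) ^ α * t ^ β) (Ioo 0 1) := by
  have h := Complex.betaIntegral_convergent (u := (β : ℂ) + 1) (v := (α : ℂ) + 1)
    (by simp; linarith) (by simp; linarith)
  rw [intervalIntegrable_iff_integrableOn_Ioo_of_le zero_le_one] at h
  have h2 := h.norm
  refine Integrable.congr h2 ?_
  refine (ae_restrict_iff' measurableSet_Ioo).mpr (Filter.Eventually.of_forall ?_)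
  intro t ht
  have ht0 : 0 < t := ht.1
  have ht1 : 0 < 1 - t := by linarith [ht.2]
  simp only [add_sub_cancel_right]
  rw [norm_mul, ← Complex.ofReal_one, ← Complex.ofReal_sub, ← Complex.ofReal_cpow ht0.le,
    ← Complex.ofReal_cpow ht1.le, Complex.norm_real, Complex.norm_real,
    Real.norm_of_nonneg (Real.rpow_nonneg ht0.le _), Real.norm_of_nonneg (Real.rpow_nonneg ht1.le _),
    mul_comm]

/-- bound of the logarithm: `-log x ≤ (1 - x) / (p x^p)` for `0 < p ≤ 1`. -/
theorem neg_log_le (x p : ℝ) (hx : 0 < x) (hx1 : x < 1) (hp : 0 < p) (hp1 : p ≤ 1) :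
    |Real.log x| ≤ (1 / p) * ((1 - x) * x ^ (-p)) := by
  have hlog : Real.log x < 0 := Real.log_neg hx hx1
  rw [abs_of_neg hlog]
  have h1 : x ^ p > 0 := Real.rpow_pos_of_pos hx p
  have h2 : Real.log ((x ^ p)⁻¹) ≤ (x ^ p)⁻¹ - 1 := Real.log_le_sub_one_of_pos (inv_pos.mpr h1)
  rw [Real.log_inv, Real.log_rpow hx] at h2
  have h3 : x ≤ x ^ p := by
    calc x = x ^ (1 : ℝ) := (Real.rpow_one x).symm
      _ ≤ x ^ p := Real.rpow_le_rpow_of_exponent_ge hx hx1.le hp1
  have h4 : (x ^ p)⁻¹ - 1 ≤ (1 - x) * (x ^ p)⁻¹ := by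
    have : (x ^ p)⁻¹ * x ≤ 1 := by
      rw [inv_mul_le_iff₀ h1]; linarith
    nlinarith
  rw [Real.rpow_neg hx.le]
  have h5 : p * (-Real.log x) ≤ (1 - x) * (x ^ p)⁻¹ := by linarith
  rw [one_div, inv_mul_eq_div, le_div_iff₀ hp]
  linarith

/-- general integrability -/
theorem key_integrable (j k : ℕ) (a b : ℝ) (ha : -1 < a) (hb : -1 < b + j) :
    IntegrableOn (fun t : ℝ => Real.log (1 - t) ^ j * Real.log t ^ k * ((1 - t) ^ a * t ^ b))
      (Ioo 0 1) := by
  -- choose p
  obtain ⟨p, hp0, hp1, hpa, hpb⟩ : ∃ p : ℝ, 0 < p ∧ p ≤ 1 ∧ -1 < a - p * j ∧ -1 < b + j - p * k := by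
    refine ⟨min 1 (min ((a + 1) / (2 * (j + 1))) ((b + j + 1) / (2 * (k + 1)))), ?_, ?_, ?_, ?_⟩
    · apply lt_min one_pos
      apply lt_min <;> apply div_pos
      · linarith
      · positivity
      · linarith
      · positivity
    · exact min_le_left _ _
    · have h1 : min 1 (min ((a + 1) / (2 * (j + 1))) ((b + j + 1) / (2 * (k + 1)))) ≤
          (a + 1) / (2 * (j + 1)) := (min_le_right _ _).trans (min_le_left _ _)
      have hj : (0 : ℝ) ≤ j := by positivity
      have h2 : min 1 (min ((a + 1) / (2 * (j + 1))) ((b + j + 1) / (2 * (k + 1)))) * j ≤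
          (a + 1) / (2 * (j + 1)) * j := by gcongr
      have h3 : (a + 1) / (2 * ((j : ℝ) + 1)) * j ≤ (a + 1) / 2 := by
        rw [div_mul_eq_mul_div, div_le_div_iff₀ (by positivity) (by positivity)]
        nlinarith
      linarith
    · have h1 : min 1 (min ((a + 1) / (2 * (j + 1))) ((b + j + 1) / (2 * (k + 1)))) ≤
          (b + j + 1) / (2 * (k + 1)) := (min_le_right _ _).trans (min_le_right _ _)
      have hk : (0 : ℝ) ≤ k := by positivity
      have h2 : min 1 (min ((a + 1) / (2 * (j + 1))) ((b + j + 1) / (2 * (k + 1)))) * k ≤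
          (b + j + 1) / (2 * (k + 1)) * k := by gcongr
      have h3 : (b + j + 1) / (2 * ((k : ℝ) + 1)) * k ≤ (b + j + 1) / 2 := by
        rw [div_mul_eq_mul_div, div_le_div_iff₀ (by positivity) (by positivity)]
        nlinarith
      linarith
  have hI := (beta_integrable (a - p * j) (b + j - p * k) hpa hpb).const_mul
    ((1 / p) ^ j * (1 / p) ^ k)
  refine Integrable.mono' hI ?_ ?_
  · apply Measurable.aestronglyMeasurable
    fun_prop
  · refine (ae_restrict_iff' measurableSet_Ioo).mpr (Filter.Eventually.of_forall ?_)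
    intro t ht
    have ht0 : 0 < t := ht.1
    have ht1 : 0 < 1 - t := by linarith [ht.2]
    have h1 := neg_log_le (1 - t) p ht1 (by linarith) hp0 hp1
    have h2 := neg_log_le t p ht0 (by linarith [ht.2]) hp0 hp1
    have h1' : |Real.log (1 - t)| ≤ (1 / p) * (t * (1 - t) ^ (-p)) := by
      have : 1 - (1 - t) = t := by ring
      rwa [this] at h1
    have h2' : |Real.log t| ≤ (1 / p) * t ^ (-p) := by
      refine h2.trans ?_
      have : 0 < t ^ (-p) := Real.rpow_pos_of_pos ht0 _
      apply mul_le_mul_of_nonneg_left _ (by positivity)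
      nlinarith
    rw [Real.norm_eq_abs, abs_mul, abs_mul, abs_mul, abs_pow, abs_pow,
      abs_of_pos (Real.rpow_pos_of_pos ht1 a), abs_of_pos (Real.rpow_pos_of_pos ht0 b)]
    calc |Real.log (1 - t)| ^ j * |Real.log t| ^ k * ((1 - t) ^ a * t ^ b)
        ≤ ((1 / p) * (t * (1 - t) ^ (-p))) ^ j * ((1 / p) * t ^ (-p)) ^ k *
            ((1 - t) ^ a * t ^ b) := by
          have : 0 ≤ (1 - t) ^ a * t ^ b := by positivity
          apply mul_le_mul_of_nonneg_right _ this
          apply mul_le_mul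
          · exact pow_le_pow_left₀ (abs_nonneg _) h1' j
          · exact pow_le_pow_left₀ (abs_nonneg _) h2' k
          · positivity
          · positivity
      _ = (1 / p) ^ j * (1 / p) ^ k * ((1 - t) ^ (a - p * j) * t ^ (b + j - p * k)) := by
          have e1 : (1 - t) ^ (a - p * j) = ((1 - t) ^ (-p)) ^ j * (1 - t) ^ a := by
            rw [← Real.rpow_natCast, ← Real.rpow_mul ht1.le, ← Real.rpow_add ht1]
            congr 1; ring
          have e2 : t ^ (b + j - p * k) = t ^ j * (t ^ (-p)) ^ k * t ^ b := by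
            rw [← Real.rpow_natCast, ← Real.rpow_natCast, ← Real.rpow_mul ht0.le,
              ← Real.rpow_add ht0, ← Real.rpow_add ht0]
            congr 1; ring
          rw [e1, e2]
          ring


/-- termwise integration of the exponential series -/
theorem exp_series_integral (u g : ℝ → ℝ) (c : ℝ) (hu : Measurable u) (hg : Measurable g)
    (hint : IntegrableOn (fun t => Real.exp (|c| * |u t|) * |g t|) (Ioo 0 1)) :
    HasSum (fun j : ℕ => (∫ t in Ioo (0 : ℝ) 1, u t ^ j * g t) / (j.factorial : ℝ) * c ^ j)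
      (∫ t in Ioo (0 : ℝ) 1, Real.exp (c * u t) * g t) := by
  have hexp : ∀ x : ℝ, HasSum (fun j : ℕ => x ^ j / (j.factorial : ℝ)) (Real.exp x) := by
    intro x
    rw [Real.exp_eq_exp_ℝ]
    exact NormedSpace.expSeries_div_hasSum_exp x
  have h := hasSum_integral_of_dominated_convergence (μ := volume.restrict (Ioo (0 : ℝ) 1))
    (F := fun (j : ℕ) (t : ℝ) => (c * u t) ^ j / (j.factorial : ℝ) * g t)
    (f := fun t => Real.exp (c * u t) * g t)
    (fun (j : ℕ) (t : ℝ) => (|c| * |u t|) ^ j / (j.factorial : ℝ) * |g t|) ?_ ?_ ?_ ?_ ?_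
  · have e : (fun j : ℕ => (∫ t in Ioo (0 : ℝ) 1, u t ^ j * g t) / (j.factorial : ℝ) * c ^ j) =
        fun j : ℕ => ∫ t in Ioo (0 : ℝ) 1, (c * u t) ^ j / (j.factorial : ℝ) * g t := by
      funext j
      rw [div_mul_eq_mul_div, ← integral_mul_const, ← integral_div]
      apply integral_congr_ae
      refine Filter.Eventually.of_forall fun t => ?_
      simp only
      rw [mul_pow]; ring
    rw [e]; exact h
  · intro j
    apply Measurable.aestronglyMeasurable
    fun_prop
  · intro j
    refine Filter.Eventually.of_forall fun t => ?_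
    rw [Real.norm_eq_abs, abs_mul, abs_div, abs_pow, abs_mul, Nat.abs_cast]
  · refine Filter.Eventually.of_forall fun t => ?_
    exact (hexp _).summable.mul_right _
  · refine Integrable.congr hint (Filter.Eventually.of_forall fun t => ?_)
    simp only
    rw [((hexp _).mul_right _).tsum_eq]
  · refine Filter.Eventually.of_forall fun t => ?_
    exact (hexp _).mul_right _

/-- the Beta type integrals with a power of the logarithm -/
noncomputable def B (i : ℕ) (a b : ℝ) : ℝ :=
  ∫ t in Ioo (0 : ℝ) 1, Real.log (1 - t) ^ i * ((1 - t) ^ a * t ^ (b - 1))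

noncomputable def G (j : ℕ) (b : ℝ) : ℝ :=
  ∫ t in Ioo (0 : ℝ) 1, Real.log (1 - t) ^ j * t ^ (b - 1)

noncomputable def J (j k : ℕ) : ℝ :=
  ∫ t in Ioo (0 : ℝ) 1, Real.log (1 - t) ^ j * Real.log t ^ k / t

theorem B_integrable (i : ℕ) (a b : ℝ) (ha : -1 < a) (hb : 0 < b + i) :
    IntegrableOn (fun t : ℝ => Real.log (1 - t) ^ i * ((1 - t) ^ a * t ^ (b - 1))) (Ioo 0 1) := by
  have := key_integrable i 0 a (b - 1) ha (by linarith)
  simpa using this

/-- expansion in `a` -/
theorem B_expansion (i : ℕ) (a b : ℝ) (ha0 : 0 ≤ a) (ha : a < 1) (hb : 0 < b) :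
    HasSum (fun j : ℕ => G (i + j) b / (j.factorial : ℝ) * a ^ j) (B i a b) := by
  have h := exp_series_integral (fun t => Real.log (1 - t))
    (fun t => Real.log (1 - t) ^ i * t ^ (b - 1)) a (by fun_prop) (by fun_prop) ?_
  · have e1 : (fun j : ℕ => G (i + j) b / (j.factorial : ℝ) * a ^ j) =
        (fun j : ℕ => (∫ t in Ioo (0 : ℝ) 1, Real.log (1 - t) ^ j *
          (Real.log (1 - t) ^ i * t ^ (b - 1))) / (j.factorial : ℝ) * a ^ j) := by
      funext j
      unfold G
      congr 2
      apply integral_congr_ae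
      refine Filter.Eventually.of_forall fun t => ?_
      simp only
      ring
    have e2 : B i a b = ∫ t in Ioo (0 : ℝ) 1, Real.exp (a * Real.log (1 - t)) *
        (Real.log (1 - t) ^ i * t ^ (b - 1)) := by
      unfold B
      apply setIntegral_congr_fun measurableSet_Ioo
      intro t ht
      have ht1 : 0 < 1 - t := by linarith [ht.2]
      simp only
      rw [Real.rpow_def_of_pos ht1, mul_comm (Real.log (1 - t)) a]
      ring
    rw [e1, e2]; exact h
  · have h2 := (B_integrable i (-a) b (by linarith) (by positivity)).norm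
    refine Integrable.congr h2 ?_
    refine (ae_restrict_iff' measurableSet_Ioo).mpr (Filter.Eventually.of_forall ?_)
    intro t ht
    have ht0 : 0 < t := ht.1
    have ht1 : 0 < 1 - t := by linarith [ht.2]
    have hlog : Real.log (1 - t) < 0 := Real.log_neg ht1 (by linarith)
    simp only
    rw [Real.norm_eq_abs, abs_mul, abs_mul, abs_mul, abs_of_pos (Real.rpow_pos_of_pos ht1 (-a)),
      abs_of_pos (Real.rpow_pos_of_pos ht0 (b - 1)), Real.rpow_def_of_pos ht1,
      abs_of_nonneg ha0, abs_of_neg hlog]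
    have : a * -Real.log (1 - t) = Real.log (1 - t) * -a := by ring
    rw [this]
    ring

/-- expansion in `b` for `j ≥ 1` -/
theorem G_expansion (j : ℕ) (hj : 1 ≤ j) (b : ℝ) (hb0 : 0 ≤ b) (hb : b < 1) :
    HasSum (fun k : ℕ => J j k / (k.factorial : ℝ) * b ^ k) (G j b) := by
  have h := exp_series_integral (fun t => Real.log t)
    (fun t => Real.log (1 - t) ^ j * t⁻¹) b (by fun_prop) (by fun_prop) ?_
  · have e1 : (fun k : ℕ => J j k / (k.factorial : ℝ) * b ^ k) =
        (fun k : ℕ => (∫ t in Ioo (0 : ℝ) 1, Real.log t ^ k *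
          (Real.log (1 - t) ^ j * t⁻¹)) / (k.factorial : ℝ) * b ^ k) := by
      funext k
      unfold J
      congr 2
      apply integral_congr_ae
      refine Filter.Eventually.of_forall fun t => ?_
      simp only
      ring
    have e2 : G j b = ∫ t in Ioo (0 : ℝ) 1, Real.exp (b * Real.log t) *
        (Real.log (1 - t) ^ j * t⁻¹) := by
      unfold G
      apply setIntegral_congr_fun measurableSet_Ioo
      intro t ht
      have ht0 : 0 < t := ht.1
      simp only
      rw [Real.rpow_sub ht0, Real.rpow_one, Real.rpow_def_of_pos ht0, mul_comm (Real.log t) b]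
      ring
    rw [e1, e2]; exact h
  · have h2 := (key_integrable j 0 0 (-b - 1) (by norm_num) (by
      have : (1 : ℝ) ≤ j := by exact_mod_cast hj
      linarith)).norm
    refine Integrable.congr h2 ?_
    refine (ae_restrict_iff' measurableSet_Ioo).mpr (Filter.Eventually.of_forall ?_)
    intro t ht
    have ht0 : 0 < t := ht.1
    have ht1 : 0 < 1 - t := by linarith [ht.2]
    have hlog : Real.log t < 0 := Real.log_neg ht0 ht.2
    simp only [pow_zero, mul_one, Real.rpow_zero, one_mul]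
    rw [Real.norm_eq_abs, abs_mul, abs_mul,
      abs_of_pos (Real.rpow_pos_of_pos ht0 (-b - 1)), Real.rpow_sub ht0, Real.rpow_one,
      Real.rpow_def_of_pos ht0, abs_of_nonneg hb0, abs_of_neg hlog, abs_of_pos (inv_pos.mpr ht0)]
    have : b * -Real.log t = Real.log t * -b := by ring
    rw [this]
    ring

theorem B_zero_eq (i : ℕ) (b : ℝ) : B i 0 b = G i b := by
  unfold B G
  apply setIntegral_congr_fun measurableSet_Ioo
  intro t ht
  simp


/-- FTC on `(0,1)` for functions vanishing at the end points. -/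
theorem ftc_zero (F F' : ℝ → ℝ) (hc : ContinuousOn F (Icc 0 1))
    (hd : ∀ t ∈ Ioo (0 : ℝ) 1, HasDerivAt F (F' t) t) (hi : IntegrableOn F' (Ioo 0 1))
    (h0 : F 0 = 0) (h1 : F 1 = 0) : ∫ t in Ioo (0 : ℝ) 1, F' t = 0 := by
  have hi' : IntervalIntegrable F' volume 0 1 := by
    rw [intervalIntegrable_iff_integrableOn_Ioo_of_le zero_le_one]; exact hi
  have h := intervalIntegral.integral_eq_sub_of_hasDerivAt_of_le zero_le_one hc hd hi'
  rw [h0, h1, sub_zero, intervalIntegral.integral_of_le zero_le_one,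
    integral_Ioc_eq_integral_Ioo] at h
  exact h

theorem hasDerivAt_rpow_one_sub (a t : ℝ) (ht : t < 1) :
    HasDerivAt (fun t : ℝ => (1 - t) ^ (a + 1)) (-((a + 1) * (1 - t) ^ a)) t := by
  have h1 : HasDerivAt (fun t : ℝ => 1 - t) (-1) t := by
    simpa using (hasDerivAt_id t).const_sub 1
  have h2 := h1.rpow_const (p := a + 1) (Or.inl (by linarith))
  convert h2 using 1
  rw [add_sub_cancel_right]; ring

theorem hasDerivAt_rpow' (b t : ℝ) (ht : 0 < t) :
    HasDerivAt (fun t : ℝ => t ^ b) (b * t ^ (b - 1)) t :=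
  Real.hasDerivAt_rpow_const (Or.inl ht.ne')

theorem hasDerivAt_log_one_sub (t : ℝ) (ht : t < 1) :
    HasDerivAt (fun t : ℝ => Real.log (1 - t)) (-(1 / (1 - t))) t := by
  have h1 : HasDerivAt (fun t : ℝ => 1 - t) (-1) t := by
    simpa using (hasDerivAt_id t).const_sub 1
  have h2 := h1.log (by linarith)
  convert h2 using 1
  ring

theorem R0 (a b : ℝ) (ha : 0 ≤ a) (hb : 0 < b) :
    (a + 1) * (B 0 a b - B 0 (a + 1) b) = b * B 0 (a + 1) b := by
  have hI1 : IntegrableOn (fun t : ℝ => (1 - t) ^ a * t ^ (b - 1)) (Ioo 0 1) := by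
    simpa using B_integrable 0 a b (by linarith) (by simpa using hb)
  have hI2 : IntegrableOn (fun t : ℝ => (1 - t) ^ (a + 1) * t ^ (b - 1)) (Ioo 0 1) := by
    simpa using B_integrable 0 (a + 1) b (by linarith) (by simpa using hb)
  have hI12 : IntegrableOn (fun t : ℝ => (1 - t) ^ a * t ^ (b - 1) -
      (1 - t) ^ (a + 1) * t ^ (b - 1)) (Ioo 0 1) := hI1.sub hI2
  have h := ftc_zero (fun t => (1 - t) ^ (a + 1) * t ^ b)
    (fun t => b * ((1 - t) ^ (a + 1) * t ^ (b - 1)) -
      (a + 1) * ((1 - t) ^ a * t ^ (b - 1) - (1 - t) ^ (a + 1) * t ^ (b - 1))) ?_ ?_ ?_ ?_ ?_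
  · rw [integral_sub (hI2.const_mul b) (hI12.const_mul (a + 1)), integral_const_mul,
      integral_const_mul, integral_sub hI1 hI2] at h
    have e1 : B 0 a b = ∫ t in Ioo (0 : ℝ) 1, (1 - t) ^ a * t ^ (b - 1) := by
      unfold B; simp
    have e2 : B 0 (a + 1) b = ∫ t in Ioo (0 : ℝ) 1, (1 - t) ^ (a + 1) * t ^ (b - 1) := by
      unfold B; simp
    rw [e1, e2]
    linarith
  · apply ContinuousOn.mul
    · apply ContinuousOn.rpow_const (by fun_prop)
      intro x _; right; linarith
    · apply ContinuousOn.rpow_const (by fun_prop)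
      intro x _; right; linarith
  · intro t ht
    have h1 := hasDerivAt_rpow_one_sub a t ht.2
    have h2 := hasDerivAt_rpow' b t ht.1
    have ht0 : 0 < t := ht.1
    have ht1 : 0 < 1 - t := by linarith [ht.2]
    have h3 := h1.mul h2
    refine HasDerivAt.congr_deriv h3 ?_
    rw [Real.rpow_add_one ht1.ne', Real.rpow_sub_one ht0.ne']
    field_simp
    ring
  · exact (hI2.const_mul b).sub (hI12.const_mul (a + 1))
  · simp [Real.zero_rpow hb.ne']
  · have : a + 1 ≠ 0 := by linarith
    simp [Real.zero_rpow this]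

theorem R1 (a b : ℝ) (ha : 0 ≤ a) (hb : 0 < b) :
    (B 0 a b - B 0 (a + 1) b) + (a + 1) * (B 1 a b - B 1 (a + 1) b) = b * B 1 (a + 1) b := by
  have hI1 : IntegrableOn (fun t : ℝ => (1 - t) ^ a * t ^ (b - 1)) (Ioo 0 1) := by
    simpa using B_integrable 0 a b (by linarith) (by simpa using hb)
  have hI2 : IntegrableOn (fun t : ℝ => (1 - t) ^ (a + 1) * t ^ (b - 1)) (Ioo 0 1) := by
    simpa using B_integrable 0 (a + 1) b (by linarith) (by simpa using hb)
  have hI3 : IntegrableOn (fun t : ℝ => Real.log (1 - t) * ((1 - t) ^ a * t ^ (b - 1)))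
      (Ioo 0 1) := by
    simpa using B_integrable 1 a b (by linarith) (by push_cast; linarith)
  have hI4 : IntegrableOn (fun t : ℝ => Real.log (1 - t) * ((1 - t) ^ (a + 1) * t ^ (b - 1)))
      (Ioo 0 1) := by
    simpa using B_integrable 1 (a + 1) b (by linarith) (by push_cast; linarith)
  have hI12 : IntegrableOn (fun t : ℝ => (1 - t) ^ a * t ^ (b - 1) -
      (1 - t) ^ (a + 1) * t ^ (b - 1)) (Ioo 0 1) := hI1.sub hI2
  have hI34 : IntegrableOn (fun t : ℝ => Real.log (1 - t) * ((1 - t) ^ a * t ^ (b - 1)) -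
      Real.log (1 - t) * ((1 - t) ^ (a + 1) * t ^ (b - 1))) (Ioo 0 1) := hI3.sub hI4
  have hIall : IntegrableOn (fun t : ℝ => ((1 - t) ^ a * t ^ (b - 1) -
      (1 - t) ^ (a + 1) * t ^ (b - 1)) +
      (a + 1) * (Real.log (1 - t) * ((1 - t) ^ a * t ^ (b - 1)) -
        Real.log (1 - t) * ((1 - t) ^ (a + 1) * t ^ (b - 1)))) (Ioo 0 1) :=
    hI12.add (hI34.const_mul (a + 1))
  have h := ftc_zero (fun t => (1 - t) ^ a * ((1 - t) * Real.log (1 - t)) * t ^ b)
    (fun t => b * (Real.log (1 - t) * ((1 - t) ^ (a + 1) * t ^ (b - 1))) -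
      (((1 - t) ^ a * t ^ (b - 1) - (1 - t) ^ (a + 1) * t ^ (b - 1)) +
      (a + 1) * (Real.log (1 - t) * ((1 - t) ^ a * t ^ (b - 1)) -
        Real.log (1 - t) * ((1 - t) ^ (a + 1) * t ^ (b - 1))))) ?_ ?_ ?_ ?_ ?_
  · rw [integral_sub (hI4.const_mul b) hIall,
      integral_const_mul, integral_add hI12 (hI34.const_mul (a + 1)),
      integral_const_mul, integral_sub hI1 hI2, integral_sub hI3 hI4] at h
    have e1 : B 0 a b = ∫ t in Ioo (0 : ℝ) 1, (1 - t) ^ a * t ^ (b - 1) := by
      unfold B; simp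
    have e2 : B 0 (a + 1) b = ∫ t in Ioo (0 : ℝ) 1, (1 - t) ^ (a + 1) * t ^ (b - 1) := by
      unfold B; simp
    have e3 : B 1 a b = ∫ t in Ioo (0 : ℝ) 1, Real.log (1 - t) * ((1 - t) ^ a * t ^ (b - 1)) := by
      unfold B; simp
    have e4 : B 1 (a + 1) b =
        ∫ t in Ioo (0 : ℝ) 1, Real.log (1 - t) * ((1 - t) ^ (a + 1) * t ^ (b - 1)) := by
      unfold B; simp
    rw [e1, e2, e3, e4]
    linarith
  · apply ContinuousOn.mul
    · apply ContinuousOn.mul
      · apply ContinuousOn.rpow_const (by fun_prop)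
        intro x _; right; linarith
      · have := Real.continuous_mul_log.comp (f := fun t : ℝ => 1 - t) (by fun_prop)
        exact this.continuousOn
    · apply ContinuousOn.rpow_const (by fun_prop)
      intro x _; right; linarith
  · intro t ht
    have ht0 : 0 < t := ht.1
    have ht1 : 0 < 1 - t := by linarith [ht.2]
    have h1 := hasDerivAt_rpow_one_sub a t ht.2
    have h2 := hasDerivAt_rpow' b t ht.1
    have h3 := hasDerivAt_log_one_sub t ht.2
    have h4 := (h1.mul h3).mul h2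
    have heq : (fun t : ℝ => (1 - t) ^ a * ((1 - t) * Real.log (1 - t)) * t ^ b) =ᶠ[nhds t]
        ((fun t : ℝ => (1 - t) ^ (a + 1)) * (fun t : ℝ => Real.log (1 - t))) *
          (fun t : ℝ => t ^ b) := by
      filter_upwards [Ioo_mem_nhds ht.1 ht.2] with s hs
      have hs1 : 0 < 1 - s := by linarith [hs.2]
      simp only [Pi.mul_apply]
      rw [Real.rpow_add_one hs1.ne']; ring
    refine HasDerivAt.congr_of_eventuallyEq ?_ heq
    refine HasDerivAt.congr_deriv h4 ?_
    rw [Pi.mul_apply]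
    rw [Real.rpow_add_one ht1.ne', Real.rpow_sub_one ht0.ne']
    field_simp
    ring
  · exact (hI4.const_mul b).sub hIall
  · simp
  · simp

theorem B0_pos (a b : ℝ) (ha : -1 < a) (hb : 0 < b) : 0 < B 0 a b := by
  have hI1 : IntegrableOn (fun t : ℝ => (1 - t) ^ a * t ^ (b - 1)) (Ioo 0 1) := by
    simpa using B_integrable 0 a b (by linarith) (by simpa using hb)
  have e1 : B 0 a b = ∫ t in Ioo (0 : ℝ) 1, (1 - t) ^ a * t ^ (b - 1) := by
    unfold B; simp
  rw [e1, ← integral_Ioc_eq_integral_Ioo, ← intervalIntegral.integral_of_le zero_le_one]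
  apply intervalIntegral.intervalIntegral_pos_of_pos_on
  · rw [intervalIntegrable_iff_integrableOn_Ioo_of_le zero_le_one]; exact hI1
  · intro t ht
    have ht0 : 0 < t := ht.1
    have ht1 : 0 < 1 - t := by linarith [ht.2]
    positivity
  · exact one_pos

theorem R2 (X b : ℝ) (hX : 1 ≤ X) (hb : 0 < b) : |B 1 X b| ≤ b / X * B 0 X b := by
  have h0 := R0 (X - 1) b (by linarith) hb
  rw [sub_add_cancel] at h0
  have hI1 : IntegrableOn (fun t : ℝ => (1 - t) ^ (X - 1) * t ^ (b - 1)) (Ioo 0 1) := by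
    simpa using B_integrable 0 (X - 1) b (by linarith) (by simpa using hb)
  have hI2 : IntegrableOn (fun t : ℝ => (1 - t) ^ X * t ^ (b - 1)) (Ioo 0 1) := by
    simpa using B_integrable 0 X b (by linarith) (by simpa using hb)
  have e1 : B 0 (X - 1) b = ∫ t in Ioo (0 : ℝ) 1, (1 - t) ^ (X - 1) * t ^ (b - 1) := by
    unfold B; simp
  have e2 : B 0 X b = ∫ t in Ioo (0 : ℝ) 1, (1 - t) ^ X * t ^ (b - 1) := by
    unfold B; simp
  have e3 : B 1 X b = ∫ t in Ioo (0 : ℝ) 1, Real.log (1 - t) * ((1 - t) ^ X * t ^ (b - 1)) := by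
    unfold B; simp
  have h1 : |B 1 X b| ≤ B 0 (X - 1) b - B 0 X b := by
    rw [e1, e2, e3, ← integral_sub hI1 hI2]
    rw [← Real.norm_eq_abs]
    apply norm_integral_le_of_norm_le (hI1.sub hI2)
    refine (ae_restrict_iff' measurableSet_Ioo).mpr (Filter.Eventually.of_forall ?_)
    intro t ht
    have ht0 : 0 < t := ht.1
    have ht1 : 0 < 1 - t := by linarith [ht.2]
    have hl := neg_log_le (1 - t) 1 ht1 (by linarith) one_pos le_rfl
    rw [Real.norm_eq_abs, abs_mul, abs_of_pos (show 0 < (1 - t) ^ X * t ^ (b - 1) by positivity)]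
    have h5 : |Real.log (1 - t)| * ((1 - t) ^ X * t ^ (b - 1)) ≤
        (1 / 1 * ((1 - (1 - t)) * (1 - t) ^ (-1 : ℝ))) * ((1 - t) ^ X * t ^ (b - 1)) := by
      gcongr
    refine h5.trans (le_of_eq ?_)
    simp only [Pi.sub_apply]
    rw [Real.rpow_neg_one, Real.rpow_sub_one ht1.ne']
    field_simp
  have hX0 : 0 < X := by linarith
  refine h1.trans (le_of_eq ?_)
  rw [div_mul_eq_mul_div, eq_div_iff hX0.ne']
  linarith

/-- the logarithmic derivative series -/
theorem log_deriv_series (a b : ℝ) (ha : 0 ≤ a) (hb : 0 < b) :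
    HasSum (fun m : ℕ => 1 / ((m : ℝ) + 1 + a) - 1 / ((m : ℝ) + 1 + a + b))
      (-(B 1 a b / B 0 a b)) := by
  have hstep : ∀ x : ℝ, 0 ≤ x → B 1 x b / B 0 x b =
      B 1 (x + 1) b / B 0 (x + 1) b - (1 / (x + 1) - 1 / (x + 1 + b)) := by
    intro x hx
    have h0 := R0 x b hx hb
    have h1 := R1 x b hx hb
    have p0 := B0_pos x b (by linarith) hb
    have p1 := B0_pos (x + 1) b (by linarith) hb
    have hx1 : x + 1 ≠ 0 := by linarith
    have hx2 : x + 1 + b ≠ 0 := by linarith
    have e0 : B 0 x b = (x + 1 + b) / (x + 1) * B 0 (x + 1) b := by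
      field_simp; linarith
    have e1 : B 1 x b = ((x + 1 + b) * B 1 (x + 1) b - (B 0 x b - B 0 (x + 1) b)) / (x + 1) := by
      rw [eq_div_iff hx1]; linarith
    rw [e1, e0]
    field_simp
  have htel : ∀ N : ℕ, ∑ m ∈ Finset.range N, (1 / ((m : ℝ) + 1 + a) - 1 / ((m : ℝ) + 1 + a + b)) =
      B 1 (a + N) b / B 0 (a + N) b - B 1 a b / B 0 a b := by
    intro N
    induction N with
    | zero => simp
    | succ N ih =>
      rw [Finset.sum_range_succ, ih]
      have h := hstep (a + N) (by positivity)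
      have e : a + ((N + 1 : ℕ) : ℝ) = a + N + 1 := by push_cast; ring
      rw [e]
      have e2 : (N : ℝ) + 1 + a = a + N + 1 := by ring
      rw [e2]
      linarith
  rw [hasSum_iff_tendsto_nat_of_nonneg]
  · simp_rw [htel]
    have hlim : Filter.Tendsto (fun N : ℕ => B 1 (a + N) b / B 0 (a + N) b) Filter.atTop (nhds 0) := by
      have hb2 : Filter.Tendsto (fun N : ℕ => b / (a + (N : ℝ))) Filter.atTop (nhds 0) := by
        apply Filter.Tendsto.const_div_atTop
        apply Filter.tendsto_atTop_add_const_left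
        exact tendsto_natCast_atTop_atTop
      apply squeeze_zero_norm' _ hb2
      filter_upwards [Filter.eventually_ge_atTop 1] with N hN
      have hN' : (1 : ℝ) ≤ N := by exact_mod_cast hN
      have h := R2 (a + N) b (by linarith) hb
      have p0 := B0_pos (a + N) b (by linarith) hb
      rw [Real.norm_eq_abs, abs_div, abs_of_pos p0, div_le_iff₀ p0]
      exact h
    have := hlim.sub_const (B 1 a b / B 0 a b)
    rw [zero_sub] at this
    exact this
  · intro m
    have h1 : (0 : ℝ) < (m : ℝ) + 1 + a := by positivity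
    have : 1 / ((m : ℝ) + 1 + a + b) ≤ 1 / ((m : ℝ) + 1 + a) :=
      one_div_le_one_div_of_le h1 (by linarith)
    linarith


/-- power series representation on `(0,1)` -/
def Rep (f : ℝ → ℝ) (p : ℕ → ℝ) : Prop :=
  ∀ b ∈ Ioo (0 : ℝ) 1, HasSum (fun k : ℕ => p k * b ^ k) (f b)

theorem coeff_zero_of_hasSum_zero (d : ℕ → ℝ)
    (h : ∀ b ∈ Ioo (0 : ℝ) 1, HasSum (fun k : ℕ => d k * b ^ k) 0) : ∀ k, d k = 0 := by
  intro k
  induction k using Nat.strong_induction_on with
  | _ k ih =>
    -- for b in (0,1/2]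
    have hs : Summable (fun i : ℕ => |d (i + (k + 1)) * (1 / 2 : ℝ) ^ i|) := by
      have h1 := (h (1 / 2) ⟨by norm_num, by norm_num⟩).summable.abs
      have h2 := (summable_nat_add_iff (k + 1)).mpr h1
      have h3 := h2.mul_right ((2 : ℝ) ^ (k + 1))
      refine h3.congr fun i => ?_
      rw [abs_mul, abs_mul, pow_add, abs_mul, abs_of_pos (show (0 : ℝ) < (1 / 2) ^ i by positivity),
        abs_of_pos (show (0 : ℝ) < (1 / 2) ^ (k + 1) by positivity)]
      have : ((1 / 2 : ℝ) ^ (k + 1)) * 2 ^ (k + 1) = 1 := by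
        rw [← mul_pow]; norm_num
      calc |d (i + (k + 1))| * ((1 / 2 : ℝ) ^ i * (1 / 2) ^ (k + 1)) * 2 ^ (k + 1)
          = |d (i + (k + 1))| * (1 / 2 : ℝ) ^ i * ((1 / 2) ^ (k + 1) * 2 ^ (k + 1)) := by ring
        _ = _ := by rw [this, mul_one]
    set M : ℝ := ∑' i : ℕ, |d (i + (k + 1)) * (1 / 2 : ℝ) ^ i| with hM
    have hM0 : 0 ≤ M := tsum_nonneg fun i => abs_nonneg _
    have hbound : ∀ b : ℝ, 0 < b → b ≤ 1 / 2 → |d k| ≤ b * M := by
      intro b hb0 hb1
      have hb := h b ⟨hb0, by linarith⟩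
      have h1 := (hasSum_nat_add_iff' k).mpr hb
      have h2 : ∑ i ∈ Finset.range k, d i * b ^ i = 0 :=
        Finset.sum_eq_zero fun i hi => by rw [ih i (Finset.mem_range.mp hi), zero_mul]
      rw [h2, sub_zero] at h1
      have h3 := (hasSum_nat_add_iff' 1).mpr h1
      simp only [Finset.range_one, Finset.sum_singleton, zero_add, zero_sub] at h3
      have hbk : 0 < b ^ k := by positivity
      have h4 := h3.mul_left ((b ^ k)⁻¹ * b⁻¹)
      have h5 : (b ^ k)⁻¹ * b⁻¹ * -(d k * b ^ k) = -(d k) / b := by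
        field_simp
      rw [h5] at h4
      have h6 : (fun i : ℕ => (b ^ k)⁻¹ * b⁻¹ * (d (i + 1 + k) * b ^ (i + 1 + k))) =
          fun i : ℕ => d (i + (k + 1)) * b ^ i := by
        funext i
        have : i + 1 + k = i + (k + 1) := by ring
        rw [this, pow_add, pow_succ]
        field_simp
      rw [h6] at h4
      have h7 : |-(d k) / b| ≤ M := by
        rw [← h4.tsum_eq, ← Real.norm_eq_abs, hM]
        apply tsum_of_norm_bounded hs.hasSum
        intro i
        rw [Real.norm_eq_abs, abs_mul, abs_mul]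
        apply mul_le_mul_of_nonneg_left _ (abs_nonneg _)
        rw [abs_of_nonneg (by positivity), abs_of_nonneg (by positivity)]
        exact pow_le_pow_left₀ hb0.le hb1 i
      rw [abs_div, abs_neg, abs_of_pos hb0, div_le_iff₀ hb0] at h7
      linarith
    by_contra hne
    have hpos : 0 < |d k| := abs_pos.mpr hne
    have hb := hbound (min (1 / 2) (|d k| / (2 * (M + 1)))) (by positivity) (min_le_left _ _)
    have h8 : min (1 / 2) (|d k| / (2 * (M + 1))) * M ≤ |d k| / (2 * (M + 1)) * M := by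
      gcongr; exact min_le_right _ _
    have h9 : |d k| / (2 * (M + 1)) * M ≤ |d k| / 2 := by
      rw [div_mul_eq_mul_div, div_le_div_iff₀ (by positivity) (by positivity)]
      nlinarith
    linarith

theorem rep_unique {f : ℝ → ℝ} {p q : ℕ → ℝ} (hp : Rep f p) (hq : Rep f q) : p = q := by
  funext k
  have := coeff_zero_of_hasSum_zero (fun k => p k - q k) (fun b hb => by
    have h := (hp b hb).sub (hq b hb)
    rw [sub_self] at h
    exact h.congr_fun fun x => by ring) k
  exact sub_eq_zero.mp this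

theorem rep_mul {f g : ℝ → ℝ} {p q : ℕ → ℝ} (hp : Rep f p) (hq : Rep g q) :
    Rep (fun b => f b * g b)
      (fun n => ∑ kl ∈ Finset.HasAntidiagonal.antidiagonal n, p kl.1 * q kl.2) := by
  intro b hb
  have h1 := hp b hb
  have h2 := hq b hb
  have n1 := h1.summable.norm
  have n2 := h2.summable.norm
  have h3 := tsum_mul_tsum_eq_tsum_sum_antidiagonal_of_summable_norm n1 n2
  have h4 := (summable_norm_sum_mul_antidiagonal_of_summable_norm n1 n2).of_norm.hasSum
  rw [← h3, h1.tsum_eq, h2.tsum_eq] at h4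
  refine h4.congr_fun fun n => ?_
  rw [Finset.sum_mul]
  apply Finset.sum_congr rfl
  intro kl hkl
  rw [← Finset.HasAntidiagonal.mem_antidiagonal.mp hkl, pow_add]
  ring

/-- functions on `(0,1)` with a power series whose coefficients are in `A` -/
def InZ (A : Subalgebra ℚ ℝ) (f : ℝ → ℝ) : Prop := ∃ p : ℕ → ℝ, (∀ k, p k ∈ A) ∧ Rep f p

theorem InZ.mul {A : Subalgebra ℚ ℝ} {f g : ℝ → ℝ} (hf : InZ A f) (hg : InZ A g) :
    InZ A (fun b => f b * g b) := by
  obtain ⟨p, hp, hfp⟩ := hf
  obtain ⟨q, hq, hgq⟩ := hg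
  exact ⟨_, fun k => A.sum_mem fun kl _ => A.mul_mem (hp _) (hq _), rep_mul hfp hgq⟩

theorem InZ.const_mul {A : Subalgebra ℚ ℝ} {f : ℝ → ℝ} (hf : InZ A f) {c : ℝ} (hc : c ∈ A) :
    InZ A (fun b => c * f b) := by
  obtain ⟨p, hp, hfp⟩ := hf
  refine ⟨fun k => c * p k, fun k => A.mul_mem hc (hp k), fun b hb => ?_⟩
  exact ((hfp b hb).mul_left c).congr_fun fun k => by ring

theorem InZ.sum {A : Subalgebra ℚ ℝ} {ι : Type} (s : Finset ι) {f : ι → ℝ → ℝ}
    (hf : ∀ i ∈ s, InZ A (f i)) : InZ A (fun b => ∑ i ∈ s, f i b) := by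
  classical
  have : ∀ i : ι, ∃ p : ℕ → ℝ, i ∈ s → (∀ k, p k ∈ A) ∧ Rep (f i) p := by
    intro i
    by_cases hi : i ∈ s
    · obtain ⟨p, hp⟩ := hf i hi
      exact ⟨p, fun _ => hp⟩
    · exact ⟨0, fun h => absurd h hi⟩
  choose p hp using this
  refine ⟨fun k => ∑ i ∈ s, p i k, fun k => A.sum_mem fun i hi => (hp i hi).1 k, fun b hb => ?_⟩
  have h := hasSum_sum (f := fun i k => p i k * b ^ k) (s := s)
    (fun i hi => (hp i hi).2 b hb)
  exact h.congr_fun fun k => by rw [Finset.sum_mul]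

theorem InZ.one (A : Subalgebra ℚ ℝ) : InZ A (fun _ => 1) := by
  refine ⟨fun k => if k = 0 then 1 else 0, fun k => ?_, fun b _ => ?_⟩
  · dsimp only
    split_ifs
    · exact A.one_mem
    · exact A.zero_mem
  · have := hasSum_ite_eq (0 : ℕ) (1 : ℝ)
    refine this.congr_fun fun k => ?_
    by_cases hk : k = 0
    · simp [hk]
    · simp [hk]

theorem InZ.congr {A : Subalgebra ℚ ℝ} {f g : ℝ → ℝ} (hf : InZ A f)
    (h : ∀ b ∈ Ioo (0 : ℝ) 1, g b = f b) : InZ A g := by
  obtain ⟨p, hp, hfp⟩ := hf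
  exact ⟨p, hp, fun b hb => by rw [h b hb]; exact hfp b hb⟩

/-- interchange of a double series dominated by a product -/
theorem double_sum (f : ℕ → ℕ → ℝ) (u v : ℕ → ℝ) (hu : Summable u) (hv : Summable v)
    (hu0 : ∀ m, 0 ≤ u m) (hv0 : ∀ m, 0 ≤ v m) (hf : ∀ m i, |f m i| ≤ u m * v i)
    (F : ℕ → ℝ) (T : ℝ) (hF : ∀ m, HasSum (f m) (F m)) (hT : HasSum F T) :
    HasSum (fun i => ∑' m, f m i) T := by
  have h1 : Summable (fun p : ℕ × ℕ => f p.1 p.2) :=
    Summable.of_norm_bounded (g := fun p : ℕ × ℕ => u p.1 * v p.2)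
      (Summable.mul_of_nonneg hu hv hu0 hv0) (fun p => hf p.1 p.2)
  have h2 : HasSum F (∑' p : ℕ × ℕ, f p.1 p.2) := h1.hasSum.prod_fiberwise hF
  have h3 : (∑' p : ℕ × ℕ, f p.1 p.2) = T := h2.unique hT
  have h4 : HasSum (fun p : ℕ × ℕ => f p.2 p.1) T := by
    rw [← h3]
    exact (Equiv.prodComm ℕ ℕ).hasSum_iff.mpr h1.hasSum
  refine h4.prod_fiberwise fun i => ?_
  have h5 := (h1.prod_symm).prod_factor i
  exact h5.hasSum


/-- zeta value as a real series -/
noncomputable def Z (n : ℕ) : ℝ := ∑' m : ℕ, 1 / ((m : ℝ) + 1) ^ n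

noncomputable def h (i : ℕ) (b : ℝ) : ℝ :=
  ∑' m : ℕ, (1 / ((m : ℝ) + 1) ^ (i + 1) - 1 / ((m : ℝ) + 1 + b) ^ (i + 1))

theorem summable_sq : Summable (fun m : ℕ => 1 / ((m : ℝ) + 1) ^ 2) := by
  have h1 : Summable (fun m : ℕ => 1 / (m : ℝ) ^ 2) := Real.summable_one_div_nat_pow.mpr (by norm_num)
  have h2 := (summable_nat_add_iff 1).mpr h1
  refine h2.congr fun m => ?_
  push_cast
  rfl

theorem geo_series (x a : ℝ) (hx : 1 ≤ x) (ha0 : 0 ≤ a) (ha : a < 1) :
    HasSum (fun i : ℕ => (-a) ^ i * (1 / x ^ (i + 1))) (1 / (x + a)) := by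
  have hx0 : 0 < x := by linarith
  have hr : |-(a / x)| < 1 := by
    rw [abs_neg, abs_of_nonneg (by positivity), div_lt_one hx0]; linarith
  have h1 := (hasSum_geometric_of_abs_lt_one hr).mul_left (1 / x)
  have e : 1 / x * (1 - -(a / x))⁻¹ = 1 / (x + a) := by
    rw [one_div, ← mul_inv, one_div]
    congr 1
    field_simp
    ring
  rw [e] at h1
  refine h1.congr_fun fun i => ?_
  rw [neg_div', div_pow, pow_succ]
  field_simp

/-- expansion in powers of `a` of the logarithmic derivative -/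
theorem D_expansion (a b : ℝ) (ha0 : 0 ≤ a) (ha : a < 1) (hb0 : 0 < b) (hb : b < 1) :
    HasSum (fun i : ℕ => ((-1) ^ i * h i b) * a ^ i) (-(B 1 a b / B 0 a b)) := by
  have hT := log_deriv_series a b ha0 hb0
  have key := double_sum
    (fun m i => (-a) ^ i * (1 / ((m : ℝ) + 1) ^ (i + 1) - 1 / ((m : ℝ) + 1 + b) ^ (i + 1)))
    (fun m => 1 / ((m : ℝ) + 1) ^ 2) (fun i => a ^ i)
    summable_sq (summable_geometric_of_lt_one ha0 ha) (fun m => by positivity)
    (fun i => by positivity) ?_
    (fun m : ℕ => 1 / ((m : ℝ) + 1 + a) - 1 / ((m : ℝ) + 1 + a + b)) _ ?_ hT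
  · refine key.congr_fun fun i => ?_
    unfold h
    rw [tsum_mul_left, neg_pow]
    ring
  · intro m i
    have hx : (1 : ℝ) ≤ (m : ℝ) + 1 := by
      have : (0 : ℝ) ≤ m := by positivity
      linarith
    set x : ℝ := (m : ℝ) + 1
    have hx0 : 0 < x := by linarith
    have hle : 1 / (x + b) ^ (i + 1) ≤ 1 / x ^ (i + 1) := by
      apply one_div_le_one_div_of_le (by positivity)
      exact pow_le_pow_left₀ hx0.le (by linarith) _
    rw [abs_mul, abs_pow, abs_neg, abs_of_nonneg ha0, abs_of_nonneg (by linarith), mul_comm]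
    apply mul_le_mul_of_nonneg_right _ (by positivity)
    rcases Nat.eq_zero_or_pos i with hi | hi
    · subst hi
      simp only [zero_add, pow_one]
      rw [div_sub_div _ _ hx0.ne' (by linarith), div_le_div_iff₀ (by positivity) (by positivity)]
      nlinarith
    · have h1 : 1 / x ^ (i + 1) ≤ 1 / x ^ 2 := by
        apply one_div_le_one_div_of_le (by positivity)
        exact pow_le_pow_right₀ hx (by omega)
      have h2 : 0 ≤ 1 / (x + b) ^ (i + 1) := by positivity
      linarith
  · intro m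
    have hx : (1 : ℝ) ≤ (m : ℝ) + 1 := by
      have : (0 : ℝ) ≤ m := by positivity
      linarith
    have h1 := geo_series ((m : ℝ) + 1) a hx ha0 ha
    have h2 := geo_series ((m : ℝ) + 1 + b) a (by linarith) ha0 ha
    have e : (m : ℝ) + 1 + b + a = (m : ℝ) + 1 + a + b := by ring
    rw [e] at h2
    exact (h1.sub h2).congr_fun fun i => by ring

/-- recursion for `G` -/
theorem G_rec (j : ℕ) (b : ℝ) (hb0 : 0 < b) (hb : b < 1) :
    G (j + 1) b / (j.factorial : ℝ) =
      -∑ kl ∈ Finset.HasAntidiagonal.antidiagonal j,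
        G kl.1 b / (kl.1.factorial : ℝ) * ((-1) ^ kl.2 * h kl.2 b) := by
  have h1 : Rep (fun a => B 0 a b) (fun j => G j b / (j.factorial : ℝ)) := by
    intro a ha
    have := B_expansion 0 a b ha.1.le ha.2 hb0
    refine this.congr_fun fun k => ?_
    rw [zero_add]
  have h2 : Rep (fun a => -(B 1 a b / B 0 a b)) (fun i => (-1) ^ i * h i b) := by
    intro a ha
    exact D_expansion a b ha.1.le ha.2 hb0 hb
  have h3 := rep_mul h1 h2
  have h4 : Rep (fun a => B 0 a b * -(B 1 a b / B 0 a b)) (fun j => -(G (j + 1) b / (j.factorial : ℝ))) := by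
    intro a ha
    have h5 := (B_expansion 1 a b ha.1.le ha.2 hb0).neg
    have p0 := B0_pos a b (by linarith [ha.1]) hb0
    have e : B 0 a b * -(B 1 a b / B 0 a b) = -(B 1 a b) := by
      field_simp
    simp only [e]
    refine h5.congr_fun fun k => ?_
    rw [add_comm 1 k]; ring
  have h6 := congrFun (rep_unique h4 h3) j
  linarith

theorem Z_summable (n : ℕ) (hn : 2 ≤ n) : Summable (fun m : ℕ => 1 / ((m : ℝ) + 1) ^ n) := by
  have h1 : Summable (fun m : ℕ => 1 / (m : ℝ) ^ n) := Real.summable_one_div_nat_pow.mpr (by omega)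
  have h2 := (summable_nat_add_iff 1).mpr h1
  refine h2.congr fun m => ?_
  push_cast
  rfl

theorem neg_binomial_series (i : ℕ) (x b : ℝ) (hx : 1 ≤ x) (hb0 : 0 ≤ b) (hb : b < 1) :
    HasSum (fun l : ℕ => -(((l + 1 + i).choose i : ℝ) * (-b) ^ (l + 1) * (1 / x ^ (l + 1 + i + 1))))
      (1 / x ^ (i + 1) - 1 / (x + b) ^ (i + 1)) := by
  have hx0 : 0 < x := by linarith
  have hr : ‖-(b / x)‖ < 1 := by
    rw [norm_neg, Real.norm_eq_abs, abs_of_nonneg (by positivity), div_lt_one hx0]; linarith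
  have h1 := (hasSum_choose_mul_geometric_of_norm_lt_one i hr).mul_left (1 / x ^ (i + 1))
  have h2 := (hasSum_nat_add_iff' 1).mpr h1
  have h3 := h2.neg
  simp only [Finset.range_one, Finset.sum_singleton, zero_add, Nat.choose_self, Nat.cast_one,
    pow_zero, mul_one, neg_sub] at h3
  have e : 1 / x ^ (i + 1) * (1 / (1 - -(b / x)) ^ (i + 1)) = 1 / (x + b) ^ (i + 1) := by
    rw [one_div_mul_one_div, ← mul_pow]
    congr 2
    field_simp
    ring
  rw [e] at h3
  refine h3.congr_fun fun l => ?_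
  have e2 : -(b / x) = (-b) / x := by ring
  rw [e2, div_pow, add_assoc (l + 1) i 1, pow_add x (l + 1) (i + 1)]
  field_simp

/-- expansion of `h` -/
theorem h_expansion (i : ℕ) (b : ℝ) (hb0 : 0 < b) (hb : b < 1) :
    HasSum (fun l : ℕ => -(((l + 1 + i).choose i : ℝ) * (-1) ^ (l + 1) * Z (l + 1 + i + 1)) * b ^ (l + 1))
      (h i b) := by
  have hsummable : Summable (fun m : ℕ =>
      (1 / ((m : ℝ) + 1) ^ (i + 1) - 1 / ((m : ℝ) + 1 + b) ^ (i + 1))) := by
    refine Summable.of_nonneg_of_le ?_ ?_ summable_sq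
    · intro m
      have hle : 1 / ((m : ℝ) + 1 + b) ^ (i + 1) ≤ 1 / ((m : ℝ) + 1) ^ (i + 1) := by
        apply one_div_le_one_div_of_le (by positivity)
        exact pow_le_pow_left₀ (by positivity) (by linarith) _
      linarith
    · intro m
      have hx : (1 : ℝ) ≤ (m : ℝ) + 1 := by
        have : (0 : ℝ) ≤ m := by positivity
        linarith
      set x : ℝ := (m : ℝ) + 1
      have hx0 : 0 < x := by linarith
      rcases Nat.eq_zero_or_pos i with hi | hi
      · subst hi
        simp only [zero_add, pow_one]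
        rw [div_sub_div _ _ hx0.ne' (by linarith), div_le_div_iff₀ (by positivity) (by positivity)]
        nlinarith
      · have h1 : 1 / x ^ (i + 1) ≤ 1 / x ^ 2 := by
          apply one_div_le_one_div_of_le (by positivity)
          exact pow_le_pow_right₀ hx (by omega)
        have h2 : 0 ≤ 1 / (x + b) ^ (i + 1) := by positivity
        linarith
  have hv : Summable (fun l : ℕ => ((l + 1 + i).choose i : ℝ) * b ^ (l + 1)) := by
    have h1 := (hasSum_choose_mul_geometric_of_norm_lt_one i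
      (r := b) (by rw [Real.norm_eq_abs, abs_of_pos hb0]; exact hb)).summable
    exact (summable_nat_add_iff 1).mpr h1
  have key := double_sum
    (fun m l => -(((l + 1 + i).choose i : ℝ) * (-b) ^ (l + 1) * (1 / ((m : ℝ) + 1) ^ (l + 1 + i + 1))))
    (fun m => 1 / ((m : ℝ) + 1) ^ 2) (fun l => ((l + 1 + i).choose i : ℝ) * b ^ (l + 1))
    summable_sq hv (fun m => by positivity) (fun l => by positivity) ?_
    (fun m : ℕ => (1 / ((m : ℝ) + 1) ^ (i + 1) - 1 / ((m : ℝ) + 1 + b) ^ (i + 1)))
    (h i b) ?_ hsummable.hasSum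
  · refine key.congr_fun fun l => ?_
    rw [tsum_neg, tsum_mul_left]
    unfold Z
    rw [neg_pow b]
    ring
  · intro m l
    have hx : (1 : ℝ) ≤ (m : ℝ) + 1 := by
      have : (0 : ℝ) ≤ m := by positivity
      linarith
    set x : ℝ := (m : ℝ) + 1
    have hx0 : 0 < x := by linarith
    rw [abs_neg, abs_mul, abs_mul, abs_pow, abs_neg, abs_of_pos hb0, Nat.abs_cast,
      abs_of_pos (show 0 < 1 / x ^ (l + 1 + i + 1) by positivity)]
    rw [mul_comm]
    apply mul_le_mul_of_nonneg_right _ (by positivity)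
    apply one_div_le_one_div_of_le (by positivity)
    exact pow_le_pow_right₀ hx (by omega)
  · intro m
    have hx : (1 : ℝ) ≤ (m : ℝ) + 1 := by
      have : (0 : ℝ) ≤ m := by positivity
      linarith
    exact neg_binomial_series i _ b hx hb0.le hb

theorem h_InZ (A : Subalgebra ℚ ℝ) (hA : ∀ n, 2 ≤ n → Z n ∈ A) (i : ℕ) : InZ A (h i) := by
  refine ⟨fun k => if k = 0 then 0 else -(((k + i).choose i : ℝ) * (-1) ^ k * Z (k + i + 1)),
    fun k => ?_, fun b hb => ?_⟩
  · dsimp only
    split_ifs with hk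
    · exact A.zero_mem
    · apply A.neg_mem
      apply A.mul_mem
      · apply A.mul_mem
        · exact natCast_mem A _
        · exact A.pow_mem (A.neg_mem A.one_mem) _
      · exact hA _ (by omega)
  · have h1 := h_expansion i b hb.1 hb.2
    rw [← hasSum_nat_add_iff' 1]
    simp only [Finset.range_one, Finset.sum_singleton, if_true, zero_mul, sub_zero]
    refine h1.congr_fun fun l => ?_
    rw [if_neg (Nat.succ_ne_zero l)]

theorem G_zero (b : ℝ) (hb : 0 < b) : G 0 b = 1 / b := by
  unfold G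
  rw [← integral_Ioc_eq_integral_Ioo, ← intervalIntegral.integral_of_le zero_le_one]
  simp only [pow_zero, one_mul]
  rw [integral_rpow (Or.inl (by linarith)), sub_add_cancel, Real.one_rpow,
    Real.zero_rpow hb.ne', sub_zero]

theorem g_InZ (A : Subalgebra ℚ ℝ) (hA : ∀ n, 2 ≤ n → Z n ∈ A) (j : ℕ) :
    InZ A (fun b => b * G j b) := by
  induction j using Nat.strong_induction_on with
  | _ j ih =>
    rcases Nat.eq_zero_or_pos j with hj | hj
    · subst hj
      refine (InZ.one A).congr fun b hb => ?_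
      rw [G_zero b hb.1]
      have := hb.1.ne'
      field_simp
    · obtain ⟨n, rfl⟩ : ∃ n, j = n + 1 := ⟨j - 1, by omega⟩
      have hsum : InZ A (fun b => ∑ kl ∈ Finset.HasAntidiagonal.antidiagonal n,
          (-(n.factorial : ℝ) * ((1 / (kl.1.factorial : ℝ)) * (-1) ^ kl.2)) *
            ((b * G kl.1 b) * h kl.2 b)) := by
        apply InZ.sum
        intro kl hkl
        have hle : kl.1 < n + 1 := by
          have := Finset.HasAntidiagonal.mem_antidiagonal.mp hkl
          omega
        apply InZ.const_mul ((ih kl.1 hle).mul (h_InZ A hA kl.2))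
        apply A.mul_mem (A.neg_mem (natCast_mem A _))
        apply A.mul_mem
        · have : (1 / (kl.1.factorial : ℝ)) = algebraMap ℚ ℝ (1 / (kl.1.factorial : ℚ)) := by
            simp
          rw [this]
          exact A.algebraMap_mem _
        · exact A.pow_mem (A.neg_mem A.one_mem) _
      refine hsum.congr fun b hb => ?_
      have hr := G_rec n b hb.1 hb.2
      have hf : (n.factorial : ℝ) ≠ 0 := by positivity
      rw [div_eq_iff hf] at hr
      rw [hr, ← Finset.sum_neg_distrib, Finset.sum_mul, Finset.mul_sum]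
      apply Finset.sum_congr rfl
      intro kl _
      ring

theorem J_mem (A : Subalgebra ℚ ℝ) (hA : ∀ n, 2 ≤ n → Z n ∈ A) (j k : ℕ) (hj : 1 ≤ j) :
    J j k ∈ A := by
  obtain ⟨p, hp, hfp⟩ := g_InZ A hA j
  have h2 : Rep (fun b => b * G j b)
      (fun k => if k = 0 then 0 else J j (k - 1) / ((k - 1).factorial : ℝ)) := by
    intro b hb
    have h1 := (G_expansion j hj b hb.1.le hb.2).mul_left b
    rw [← hasSum_nat_add_iff' 1]
    simp only [Finset.range_one, Finset.sum_singleton, if_true, zero_mul, sub_zero]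
    refine h1.congr_fun fun l => ?_
    rw [if_neg (Nat.succ_ne_zero l), Nat.add_sub_cancel, pow_succ]
    ring
  have h3 := congrFun (rep_unique hfp h2) (k + 1)
  simp only [Nat.succ_ne_zero, if_false, Nat.add_sub_cancel] at h3
  have hf : (k.factorial : ℝ) ≠ 0 := by positivity
  rw [eq_div_iff hf] at h3
  rw [← h3]
  exact A.mul_mem (hp _) (natCast_mem A _)


/-- the constant `log 2` -/
theorem log2_pos : 0 < Real.log 2 := Real.log_pos (by norm_num)

theorem log_one_add_bounds (x : ℝ) (h0 : 0 < x) (h1 : x < 1) :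
    0 < Real.log (1 + x) ∧ Real.log (1 + x) < Real.log 2 ∧
      Real.log 2 - Real.log (1 + x) ≤ 1 - x := by
  refine ⟨Real.log_pos (by linarith), Real.log_lt_log (by linarith) (by linarith), ?_⟩
  have h2 : Real.log 2 - Real.log (1 + x) = Real.log (2 / (1 + x)) := by
    rw [Real.log_div (by norm_num) (by linarith)]
  rw [h2]
  have h3 := Real.log_le_sub_one_of_pos (show 0 < 2 / (1 + x) by positivity)
  have h4 : 2 / (1 + x) - 1 ≤ 1 - x := by
    rw [div_sub_one (by linarith), div_le_iff₀ (by linarith)]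
    nlinarith
  linarith

theorem pow_diff_bound (n : ℕ) (x : ℝ) (h0 : 0 < x) (h1 : x < 1) :
    |Real.log (1 + x) ^ (n + 1) - Real.log 2 ^ (n + 1)| ≤
      (1 - x) * (((n + 1 : ℕ) : ℝ) * Real.log 2 ^ n) := by
  obtain ⟨a1, a2, a3⟩ := log_one_add_bounds x h0 h1
  have h2 := abs_pow_sub_pow_le (Real.log (1 + x)) (Real.log 2) (n + 1)
  refine h2.trans ?_
  rw [abs_of_pos a1, abs_of_pos log2_pos, max_eq_right a2.le, Nat.add_sub_cancel, mul_assoc]
  apply mul_le_mul_of_nonneg_right _ (by have := log2_pos; positivity)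
  rw [abs_sub_comm, abs_of_pos (by linarith)]
  exact a3

/-- the original integrand -/
noncomputable def f1 (n : ℕ) (x : ℝ) : ℝ :=
  Real.log (1 - x) ^ (n + 1) * Real.log (1 + x) ^ n / (1 + x)

noncomputable def fA (n : ℕ) (x : ℝ) : ℝ :=
  (Real.log (1 + x) ^ (n + 1) - Real.log 2 ^ (n + 1)) * Real.log (1 - x) ^ n / (1 - x)

noncomputable def f2 (n : ℕ) (x : ℝ) : ℝ :=
  (Real.log (1 - x) ^ (n + 1) - Real.log 2 ^ (n + 1)) * Real.log (1 + x) ^ n / (1 + x)

noncomputable def P (n : ℕ) (t : ℝ) : ℝ :=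
  ((Real.log 2 + Real.log (1 - t)) ^ (n + 1) - Real.log 2 ^ (n + 1)) *
    (Real.log 2 + Real.log t) ^ n / t

theorem f1_integrable (n : ℕ) : IntegrableOn (f1 n) (Ioo 0 1) := by
  have hk := key_integrable (n + 1) 0 0 0 (by norm_num) (by push_cast; linarith [show (0:ℝ) ≤ n by positivity])
  have hI := (hk.norm).mul_const (Real.log 2 ^ n)
  refine Integrable.mono' hI ?_ ?_
  · apply Measurable.aestronglyMeasurable
    unfold f1; fun_prop
  · refine (ae_restrict_iff' measurableSet_Ioo).mpr (Filter.Eventually.of_forall ?_)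
    intro x hx
    obtain ⟨a1, a2, _⟩ := log_one_add_bounds x hx.1 hx.2
    unfold f1
    simp only [pow_zero, mul_one, Real.rpow_zero]
    rw [Real.norm_eq_abs, abs_div, abs_mul, Real.norm_eq_abs, abs_of_pos (show 0 < 1 + x by linarith [hx.1]),
      abs_of_pos (pow_pos a1 n)]
    have h3 : Real.log (1 + x) ^ n ≤ Real.log 2 ^ n := pow_le_pow_left₀ a1.le a2.le n
    calc |Real.log (1 - x) ^ (n + 1)| * Real.log (1 + x) ^ n / (1 + x)
        ≤ |Real.log (1 - x) ^ (n + 1)| * Real.log (1 + x) ^ n := by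
          apply div_le_self (by positivity) (by linarith [hx.1])
      _ ≤ _ := by gcongr

theorem fA_integrable (n : ℕ) : IntegrableOn (fA n) (Ioo 0 1) := by
  have hk := key_integrable n 0 0 0 (by norm_num) (by linarith [show (0:ℝ) ≤ n by positivity])
  have hI := (hk.norm).const_mul (((n + 1 : ℕ) : ℝ) * Real.log 2 ^ n)
  refine Integrable.mono' hI ?_ ?_
  · apply Measurable.aestronglyMeasurable
    unfold fA; fun_prop
  · refine (ae_restrict_iff' measurableSet_Ioo).mpr (Filter.Eventually.of_forall ?_)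
    intro x hx
    have hb := pow_diff_bound n x hx.1 hx.2
    have hx1 : 0 < 1 - x := by linarith [hx.2]
    unfold fA
    simp only [pow_zero, mul_one, Real.rpow_zero]
    rw [Real.norm_eq_abs, abs_div, abs_mul, Real.norm_eq_abs, abs_of_pos hx1, div_le_iff₀ hx1]
    calc |Real.log (1 + x) ^ (n + 1) - Real.log 2 ^ (n + 1)| * |Real.log (1 - x) ^ n|
        ≤ ((1 - x) * (((n + 1 : ℕ) : ℝ) * Real.log 2 ^ n)) * |Real.log (1 - x) ^ n| := by gcongr
      _ = _ := by ring

/-- integration by parts -/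
theorem int_fA_eq (n : ℕ) : ∫ x in (0 : ℝ)..1, fA n x = ∫ x in (0 : ℝ)..1, f1 n x := by
  have hA : IntervalIntegrable (fA n) volume 0 1 := by
    rw [intervalIntegrable_iff_integrableOn_Ioo_of_le zero_le_one]; exact fA_integrable n
  have h1 : IntervalIntegrable (f1 n) volume 0 1 := by
    rw [intervalIntegrable_iff_integrableOn_Ioo_of_le zero_le_one]; exact f1_integrable n
  have hmain := intervalIntegral.integral_eq_sub_of_hasDerivAt_of_tendsto (a := 0) (b := 1)
    (f := fun x => Real.log (1 - x) ^ (n + 1) * (Real.log (1 + x) ^ (n + 1) - Real.log 2 ^ (n + 1)))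
    (f' := fun x => ((n + 1 : ℕ) : ℝ) * (f1 n x - fA n x)) zero_lt_one (fa := 0) (fb := 0)
    ?_ ?_ ?_ ?_
  · rw [intervalIntegral.integral_const_mul, intervalIntegral.integral_sub h1 hA, sub_zero] at hmain
    have hn : (((n + 1 : ℕ)) : ℝ) ≠ 0 := by positivity
    have := (mul_eq_zero.mp hmain).resolve_left hn
    linarith
  · intro x hx
    have hx1 : 0 < 1 - x := by linarith [hx.2]
    have hx2 : 0 < 1 + x := by linarith [hx.1]
    have d1 := (hasDerivAt_log_one_sub x hx.2).pow (n + 1)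
    have d2 : HasDerivAt (fun x : ℝ => Real.log (1 + x)) (1 / (1 + x)) x := by
      have : HasDerivAt (fun x : ℝ => 1 + x) 1 x := by
        simpa using (hasDerivAt_id x).const_add 1
      exact this.log hx2.ne'
    have d3 := (d2.pow (n + 1)).sub_const (Real.log 2 ^ (n + 1))
    have d4 := d1.mul d3
    refine HasDerivAt.congr_deriv d4 ?_
    simp only [Pi.pow_apply, Nat.add_sub_cancel]
    unfold f1 fA
    field_simp
    ring
  · exact (h1.sub hA).const_mul _
  · have hc : ContinuousAt (fun x : ℝ => Real.log (1 - x) ^ (n + 1) *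
        (Real.log (1 + x) ^ (n + 1) - Real.log 2 ^ (n + 1))) 0 := by
      apply ContinuousAt.mul
      · apply ContinuousAt.pow
        apply ContinuousAt.log (by fun_prop) (by norm_num)
      · apply ContinuousAt.sub _ continuousAt_const
        apply ContinuousAt.pow
        apply ContinuousAt.log (by fun_prop) (by norm_num)
    have h5 := hc.tendsto
    simp only [sub_zero, Real.log_one, ne_eq, Nat.succ_ne_zero, not_false_eq_true, zero_pow,
      zero_mul] at h5
    exact h5.mono_left nhdsWithin_le_nhds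
  · -- limit at 1
    set C : ℝ := ((1 / (1 / (2 * ((n : ℝ) + 1)))) ^ (n + 1)) * (((n + 1 : ℕ) : ℝ) * Real.log 2 ^ n) with hC
    have hC0 : 0 ≤ C := by have := log2_pos; positivity
    have hlim : Filter.Tendsto (fun x : ℝ => C * (1 - x) ^ (1 / 2 : ℝ)) (nhdsWithin 1 (Iio 1)) (nhds 0) := by
      have hc : ContinuousAt (fun x : ℝ => C * (1 - x) ^ (1 / 2 : ℝ)) 1 := by
        apply ContinuousAt.mul continuousAt_const
        apply ContinuousAt.rpow_const (by fun_prop)
        right; norm_num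
      have h5 := hc.tendsto
      simp only [sub_self] at h5
      rw [Real.zero_rpow (by norm_num), mul_zero] at h5
      exact h5.mono_left nhdsWithin_le_nhds
    apply squeeze_zero_norm' _ hlim
    have hmem : Ioo (0 : ℝ) 1 ∈ nhdsWithin 1 (Iio 1) := Ioo_mem_nhdsLT zero_lt_one
    filter_upwards [hmem] with x hx
    have hx1 : 0 < 1 - x := by linarith [hx.2]
    have hb := pow_diff_bound n x hx.1 hx.2
    have hp0 : (0 : ℝ) < 1 / (2 * ((n : ℝ) + 1)) := by positivity
    have hp1 : 1 / (2 * ((n : ℝ) + 1)) ≤ 1 := by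
      rw [div_le_one (by positivity)]
      have : (0 : ℝ) ≤ n := by positivity
      linarith
    have hl := neg_log_le (1 - x) (1 / (2 * ((n : ℝ) + 1))) hx1 (by linarith [hx.1]) hp0 hp1
    set p : ℝ := 1 / (2 * ((n : ℝ) + 1)) with hp
    have hl2 : |Real.log (1 - x)| ≤ (1 / p) * (1 - x) ^ (-p) := by
      refine hl.trans ?_
      have : 0 < (1 - x) ^ (-p) := Real.rpow_pos_of_pos hx1 _
      apply mul_le_mul_of_nonneg_left _ (by positivity)
      have h7 : 1 - (1 - x) ≤ 1 := by linarith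
      nlinarith
    rw [Real.norm_eq_abs, abs_mul, abs_pow]
    calc |Real.log (1 - x)| ^ (n + 1) * |Real.log (1 + x) ^ (n + 1) - Real.log 2 ^ (n + 1)|
        ≤ ((1 / p) * (1 - x) ^ (-p)) ^ (n + 1) * ((1 - x) * (((n + 1 : ℕ) : ℝ) * Real.log 2 ^ n)) := by
          gcongr
      _ = C * (((1 - x) ^ (-p)) ^ (n + 1) * (1 - x)) := by rw [hC]; ring
      _ = C * (1 - x) ^ (1 / 2 : ℝ) := by
          congr 1
          rw [← Real.rpow_natCast, ← Real.rpow_mul hx1.le, ← Real.rpow_add_one hx1.ne']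
          congr 1
          rw [hp]; push_cast; field_simp; ring

theorem int_log_pow (n : ℕ) :
    ∫ x in (0 : ℝ)..1, Real.log (1 + x) ^ n / (1 + x) = Real.log 2 ^ (n + 1) / ((n + 1 : ℕ) : ℝ) := by
  have hcont : ContinuousOn (fun x : ℝ => Real.log (1 + x) ^ n / (1 + x)) (uIcc 0 1) := by
    rw [uIcc_of_le zero_le_one]
    apply ContinuousOn.div
    · apply ContinuousOn.pow
      apply ContinuousOn.log (by fun_prop)
      intro x hx; linarith [hx.1]
    · fun_prop
    · intro x hx; linarith [hx.1]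
  have h := intervalIntegral.integral_eq_sub_of_hasDerivAt (a := 0) (b := 1)
    (f := fun x : ℝ => Real.log (1 + x) ^ (n + 1) / ((n + 1 : ℕ) : ℝ))
    (f' := fun x : ℝ => Real.log (1 + x) ^ n / (1 + x)) ?_ hcont.intervalIntegrable
  · rw [h]
    norm_num
  · intro x hx
    rw [uIcc_of_le zero_le_one] at hx
    have hx2 : 0 < 1 + x := by linarith [hx.1]
    have d2 : HasDerivAt (fun x : ℝ => Real.log (1 + x)) (1 / (1 + x)) x := by
      have : HasDerivAt (fun x : ℝ => 1 + x) 1 x := by
        simpa using (hasDerivAt_id x).const_add 1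
      exact this.log hx2.ne'
    have d3 := (d2.pow (n + 1)).div_const (((n + 1 : ℕ)) : ℝ)
    refine HasDerivAt.congr_deriv d3 ?_
    simp only [Nat.add_sub_cancel]
    have hn : (((n + 1 : ℕ)) : ℝ) ≠ 0 := by positivity
    field_simp

theorem int_f2_eq (n : ℕ) : ∫ x in (0 : ℝ)..1, f2 n x =
    (∫ x in (0 : ℝ)..1, f1 n x) - Real.log 2 ^ (n + 1) * (Real.log 2 ^ (n + 1) / ((n + 1 : ℕ) : ℝ)) := by
  have h1 : IntervalIntegrable (f1 n) volume 0 1 := by
    rw [intervalIntegrable_iff_integrableOn_Ioo_of_le zero_le_one]; exact f1_integrable n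
  have hcont : ContinuousOn (fun x : ℝ => Real.log (1 + x) ^ n / (1 + x)) (uIcc 0 1) := by
    rw [uIcc_of_le zero_le_one]
    apply ContinuousOn.div
    · apply ContinuousOn.pow
      apply ContinuousOn.log (by fun_prop)
      intro x hx; linarith [hx.1]
    · fun_prop
    · intro x hx; linarith [hx.1]
  rw [← int_log_pow n, ← intervalIntegral.integral_const_mul,
    ← intervalIntegral.integral_sub h1 (hcont.intervalIntegrable.const_mul _)]
  apply intervalIntegral.integral_congr
  intro x _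
  unfold f2 f1
  ring

/-- the expansion of `P` -/
theorem P_expand (n : ℕ) (t : ℝ) : P n t =
    ∑ j ∈ Finset.range (n + 1), ∑ k ∈ Finset.range (n + 1),
      (((n + 1).choose (j + 1) : ℝ) * (n.choose k : ℝ) *
        Real.log 2 ^ (n - j) * Real.log 2 ^ (n - k)) *
        (Real.log (1 - t) ^ (j + 1) * Real.log t ^ k / t) := by
  unfold P
  rw [add_comm (Real.log 2) (Real.log (1 - t)), add_comm (Real.log 2) (Real.log t),
    add_pow, add_pow, Finset.sum_range_succ']
  simp only [pow_zero, Nat.choose_zero_right, Nat.cast_one, mul_one, one_mul, Nat.sub_zero,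
    add_sub_cancel_right]
  rw [Finset.sum_mul, Finset.sum_div]
  apply Finset.sum_congr rfl
  intro j _
  rw [Finset.mul_sum, Finset.sum_div]
  apply Finset.sum_congr rfl
  intro k _
  have : n + 1 - (j + 1) = n - j := by omega
  rw [this]
  ring

theorem Jint_integrable (j k : ℕ) : IntegrableOn
    (fun t : ℝ => Real.log (1 - t) ^ (j + 1) * Real.log t ^ k / t) (Ioo 0 1) := by
  have hk := key_integrable (j + 1) k 0 (-1) (by norm_num)
    (by push_cast; linarith [show (0:ℝ) ≤ j by positivity])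
  refine Integrable.congr hk ?_
  refine (ae_restrict_iff' measurableSet_Ioo).mpr (Filter.Eventually.of_forall ?_)
  intro t ht
  simp only [Real.rpow_zero, one_mul]
  rw [Real.rpow_neg_one, div_eq_mul_inv]

theorem P_integrable (n : ℕ) : IntegrableOn (P n) (Ioo 0 1) := by
  have : P n = fun t => ∑ j ∈ Finset.range (n + 1), ∑ k ∈ Finset.range (n + 1),
      (((n + 1).choose (j + 1) : ℝ) * (n.choose k : ℝ) *
        Real.log 2 ^ (n - j) * Real.log 2 ^ (n - k)) *
        (Real.log (1 - t) ^ (j + 1) * Real.log t ^ k / t) := funext (P_expand n)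
  rw [this]
  apply integrable_finsetSum
  intro j _
  apply integrable_finsetSum
  intro k _
  exact (Jint_integrable j k).const_mul _

theorem int_P_mem (A : Subalgebra ℚ ℝ) (hA : ∀ n, 2 ≤ n → Z n ∈ A) (hL : Real.log 2 ∈ A) (n : ℕ) :
    ∫ t in (0 : ℝ)..1, P n t ∈ A := by
  rw [intervalIntegral.integral_of_le zero_le_one, integral_Ioc_eq_integral_Ioo]
  have : P n = fun t => ∑ j ∈ Finset.range (n + 1), ∑ k ∈ Finset.range (n + 1),
      (((n + 1).choose (j + 1) : ℝ) * (n.choose k : ℝ) *
        Real.log 2 ^ (n - j) * Real.log 2 ^ (n - k)) *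
        (Real.log (1 - t) ^ (j + 1) * Real.log t ^ k / t) := funext (P_expand n)
  rw [this]
  rw [integral_finsetSum]
  · apply A.sum_mem
    intro j _
    rw [integral_finsetSum]
    · apply A.sum_mem
      intro k _
      rw [integral_const_mul]
      apply A.mul_mem
      · apply A.mul_mem
        · apply A.mul_mem
          · exact A.mul_mem (natCast_mem A _) (natCast_mem A _)
          · exact A.pow_mem hL _
        · exact A.pow_mem hL _
      · exact J_mem A hA (j + 1) k (by omega)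
    · intro k _
      exact (Jint_integrable j k).const_mul _
  · intro j _
    apply integrable_finsetSum
    intro k _
    exact (Jint_integrable j k).const_mul _

theorem int_P_eq (n : ℕ) : ∫ t in (0 : ℝ)..1, P n t =
    (∫ x in (0 : ℝ)..1, fA n x) + ∫ x in (0 : ℝ)..1, f2 n x := by
  have hP : IntervalIntegrable (P n) volume 0 1 := by
    rw [intervalIntegrable_iff_integrableOn_Ioo_of_le zero_le_one]; exact P_integrable n
  have hP1 : IntervalIntegrable (P n) volume 0 (1 / 2) := by
    apply hP.mono_set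
    rw [uIcc_of_le zero_le_one, uIcc_of_le (by norm_num)]
    exact Icc_subset_Icc le_rfl (by norm_num)
  have hP2 : IntervalIntegrable (P n) volume (1 / 2) 1 := by
    apply hP.mono_set
    rw [uIcc_of_le zero_le_one, uIcc_of_le (by norm_num)]
    exact Icc_subset_Icc (by norm_num) le_rfl
  rw [← intervalIntegral.integral_add_adjacent_intervals hP1 hP2]
  congr 1
  · have h1 := intervalIntegral.integral_comp_sub_mul (a := 0) (b := 1 / 2) (c := 2) (fA n)
      (by norm_num) 1
    have h2 : ∫ t in (0 : ℝ)..(1 / 2), P n t = ∫ t in (0 : ℝ)..(1 / 2), 2 * fA n (1 - 2 * t) := by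
      apply intervalIntegral.integral_congr_ae
      refine Filter.Eventually.of_forall fun t ht => ?_
      rw [uIoc_of_le (by norm_num)] at ht
      have ht0 : 0 < t := ht.1
      have ht1 : 0 < 1 - t := by linarith [ht.2]
      unfold P fA
      have e1 : 1 + (1 - 2 * t) = 2 * (1 - t) := by ring
      have e2 : 1 - (1 - 2 * t) = 2 * t := by ring
      rw [e1, e2, Real.log_mul (by norm_num) ht1.ne', Real.log_mul (by norm_num) ht0.ne']
      field_simp
    rw [h2, intervalIntegral.integral_const_mul, h1]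
    norm_num
    ring
  · have h1 := intervalIntegral.integral_comp_mul_sub (a := 1 / 2) (b := 1) (c := 2) (f2 n)
      (by norm_num) 1
    have h2 : ∫ t in (1 / 2 : ℝ)..1, P n t = ∫ t in (1 / 2 : ℝ)..1, 2 * f2 n (2 * t - 1) := by
      apply intervalIntegral.integral_congr_ae
      have hne : ∀ᵐ t : ℝ, t ≠ 1 := by
        simp [ae_iff, measure_singleton]
      filter_upwards [hne] with t hne1 ht
      rw [uIoc_of_le (by norm_num)] at ht
      have ht0 : 0 < t := by linarith [ht.1]
      have ht1 : 0 < 1 - t := by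
        have := lt_of_le_of_ne ht.2 hne1
        linarith
      unfold P f2
      have e1 : 1 + (2 * t - 1) = 2 * t := by ring
      have e2 : 1 - (2 * t - 1) = 2 * (1 - t) := by ring
      rw [e1, e2, Real.log_mul (by norm_num) ht1.ne', Real.log_mul (by norm_num) ht0.ne']
      field_simp
    rw [h2, intervalIntegral.integral_const_mul, h1]
    norm_num
    ring

theorem main_mem (A : Subalgebra ℚ ℝ) (hA : ∀ n, 2 ≤ n → Z n ∈ A) (hL : Real.log 2 ∈ A) (n : ℕ) :
    ∫ x in (0 : ℝ)..1, f1 n x ∈ A := by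
  have h1 := int_P_eq n
  rw [int_fA_eq, int_f2_eq] at h1
  have h2 : ∫ x in (0 : ℝ)..1, f1 n x = (algebraMap ℚ ℝ (1 / 2)) * (∫ t in (0 : ℝ)..1, P n t) +
      (algebraMap ℚ ℝ (1 / (2 * ((n + 1 : ℕ) : ℚ)))) * (Real.log 2 ^ (n + 1) * Real.log 2 ^ (n + 1)) := by
    rw [h1]
    simp only [map_div₀, map_one, map_mul, map_natCast, map_ofNat]
    have hn : (((n + 1 : ℕ)) : ℝ) ≠ 0 := by positivity
    field_simp
    ring
  rw [h2]
  apply A.add_mem
  · exact A.mul_mem (A.algebraMap_mem _) (int_P_mem A hA hL n)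
  · exact A.mul_mem (A.algebraMap_mem _) (A.mul_mem (A.pow_mem hL _) (A.pow_mem hL _))

theorem Z_even_mem (A : Subalgebra ℚ ℝ) (hpi : Real.pi ^ 2 ∈ A) (k : ℕ) (hk : k ≠ 0) :
    Z (2 * k) ∈ A := by
  have h1 := hasSum_zeta_nat hk
  have h2 : Z (2 * k) = (-1) ^ (k + 1) * 2 ^ (2 * k - 1) * Real.pi ^ (2 * k) *
      (bernoulli (2 * k) : ℝ) / ((2 * k).factorial : ℝ) := by
    rw [← h1.tsum_eq, h1.summable.tsum_eq_zero_add]
    unfold Z
    have : (2 * k) ≠ 0 := by omega
    simp [this]
  have h3 : Z (2 * k) = algebraMap ℚ ℝ ((-1) ^ (k + 1) * 2 ^ (2 * k - 1) * bernoulli (2 * k) /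
      ((2 * k).factorial : ℚ)) * (Real.pi ^ 2) ^ k := by
    rw [h2, ← pow_mul]
    simp only [map_div₀, map_mul, map_pow, map_neg, map_one, map_natCast, map_ofNat,
      eq_ratCast]
    ring
  rw [h3]
  exact A.mul_mem (A.algebraMap_mem _) (A.pow_mem hpi _)

theorem Z_cast (k : ℕ) (hk : 1 < k) : ((Z k : ℝ) : ℂ) = riemannZeta k := by
  rw [zeta_nat_eq_tsum_of_gt_one hk]
  have hs : Summable (fun n : ℕ => 1 / (n : ℂ) ^ k) := by
    have : Summable (fun n : ℕ => ((1 / (n : ℝ) ^ k : ℝ) : ℂ)) :=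
      Complex.ofRealCLM.summable (Real.summable_one_div_nat_pow.mpr hk)
    refine this.congr fun n => ?_
    push_cast; rfl
  rw [hs.tsum_eq_zero_add]
  unfold Z
  rw [Complex.ofReal_tsum]
  have : k ≠ 0 := by omega
  simp [this]

end Pool.Agent.Lib.MP_cd3f56_nt
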